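import Pool.Agent.Q124.Surv.DLSurvival

/-!
# The survival number and the unrestricted Voronoi count of DL(2,2) differ

The Diestel-Leader graph DL(2,2), a Cayley graph of the lamplighter group, has survival number at
most `6`, and its unrestricted Voronoi count is infinite.

* If `T` has `k` infinite cells, then it has at most `k ^ 2` finite cells: let `w = (f, m)` be a
  site with finite cell.  At the vertices `u = (F, t)`, where `F` agrees with `f` on the left of
  `m`, the lamp `m` of `F` is arbitrary, there are no further lamps in `F`, and `t` is large, the
  distance to `w` is `t - m`.  So a site closer to `u` has the same lamps as `F` on the left of `m`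
  and at `m`.  Therefore the left parts of the sites with finite cells are branching points of a
  binary tree with at most `k` leaves.  Their number is at most `k`, and in the same way the
  number of their right parts is at most `k`.
* Seven sites, one of which has a finite cell: `(∅, 0)`, `({K + 1}, 1)`, `({0, K + 2}, 1)`,
  `({K + 3}, -1)` and the mirror images of the last three.
-/

namespace Pool.Agent.Results.MP_785f4e_co.UnrestrictedDiffers

open Q124.Surv Filter Topology

section Defs

variable {V : Type*} (G : SimpleGraph V)

/-- The minimum of the number of sites with infinite cells over the sets of `n` sites. -/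
noncomputable def minInfinite (n : ℕ) : ℕ :=
  sInf {k | ∃ T : Finset V, T.card = n ∧ k = numInfinite G T}

/-- The unrestricted Voronoi count `t(G)`, the limit of the minima, an element of `ℕ ∪ {∞}`. -/
noncomputable def unrestricted : ℕ∞ := limUnder atTop fun n => (minInfinite G n : ℕ∞)

end Defs

theorem tendsto_top : Tendsto (fun n => (minInfinite dl n : ℕ∞)) atTop (𝓝 ⊤) := by
  rw [ENat.tendsto_nhds_top_iff_natCast_lt]
  intro k
  filter_upwards [eventually_ge_atTop (k + 1 + (k + 1) * (k + 1))] with n hn
  have h : k + 1 ≤ minInfinite dl n := by
    apply le_csInf
    · obtain ⟨T, hT⟩ := Infinite.exists_subset_card_eq DLV n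
      exact ⟨_, T, hT, rfl⟩
    · rintro _ ⟨T, hT, rfl⟩
      exact le_numInfinite (by omega)
  exact_mod_cast h

/-- **There is an infinite, connected, locally finite, vertex-transitive graph whose survival
number is at most `6` and whose unrestricted Voronoi count is infinite.** -/
theorem result : ∃ (V : Type) (G : SimpleGraph V), Infinite V ∧ G.Connected ∧ LocFinite G ∧
    VertexTransitive G ∧ survival G ≤ 6 ∧
    Tendsto (fun n => (minInfinite G n : ℕ∞)) atTop (𝓝 ⊤) ∧ unrestricted G = ⊤ :=
  ⟨DLV, dl, inferInstance, dl_connected, dl_locFinite, dl_transitive, dl_survival, tendsto_top,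
    tendsto_top.limUnder_eq⟩

end Pool.Agent.Results.MP_785f4e_co.UnrestrictedDiffers
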